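import Pool.Agent.Lib.MP_182bbb_co.TT.H72.Core

/-! LL: the local lemma (`k ≥ 1`), downward induction on the number of popular vertices. -/

open Finset

namespace MP_182bbb_co.TT.H72

open MP_182bbb_co.H5

section Cnt

variable {V : Type} [Fintype V]

theorem cnt3_mono {P Q : V → V → V → Prop} (h : ∀ x y w, P x y w → Q x y w) :
    cnt3 P ≤ cnt3 Q := by
  classical
  unfold cnt3
  refine card_le_card ?_
  intro p hp
  simp only [mem_filter, mem_univ, true_and] at hp ⊢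
  exact h _ _ _ hp

theorem cnt2_le (P : V → V → Prop) : cnt2 P ≤ Fintype.card V ^ 2 := by
  classical
  unfold cnt2
  refine (card_le_univ _).trans ?_
  rw [Fintype.card_prod]
  apply le_of_eq
  ring

theorem cnt3_swap (P : V → V → V → Prop) : cnt3 (fun x x' y => P x' x y) = cnt3 P := by
  classical
  unfold cnt3
  refine card_bij (fun p _ => (p.2.1, p.1, p.2.2)) ?_ ?_ ?_
  · intro p hp
    simp only [mem_filter, mem_univ, true_and] at hp ⊢
    exact hp
  · rintro ⟨p, p', p''⟩ _ ⟨q, q', q''⟩ _ h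
    simp only [Prod.mk.injEq] at h ⊢
    tauto
  · rintro ⟨p, p', p''⟩ hp
    simp only [mem_filter, mem_univ, true_and] at hp
    refine ⟨(p', p, p''), ?_, rfl⟩
    simp only [mem_filter, mem_univ, true_and]
    exact hp

theorem cnt3_split (P Q₁ Q₂ Q₃ : V → V → V → Prop) :
    cnt3 P ≤ cnt3 (fun x y w => P x y w ∧ ¬ Q₁ x y w ∧ ¬ Q₂ x y w ∧ ¬ Q₃ x y w) + cnt3 Q₁ +
      cnt3 Q₂ + cnt3 Q₃ := by
  classical
  unfold cnt3
  refine le_trans (card_le_card (t := ((univ.filter (fun p : V × V × V => P p.1 p.2.1 p.2.2 ∧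
    ¬ Q₁ p.1 p.2.1 p.2.2 ∧ ¬ Q₂ p.1 p.2.1 p.2.2 ∧ ¬ Q₃ p.1 p.2.1 p.2.2) ∪
      univ.filter (fun p : V × V × V => Q₁ p.1 p.2.1 p.2.2)) ∪
      univ.filter (fun p : V × V × V => Q₂ p.1 p.2.1 p.2.2)) ∪
      univ.filter (fun p : V × V × V => Q₃ p.1 p.2.1 p.2.2)) ?_) ?_
  · intro p hp
    simp only [mem_union, mem_filter, mem_univ, true_and] at hp ⊢
    by_cases h1 : Q₁ p.1 p.2.1 p.2.2
    · exact Or.inl (Or.inl (Or.inr h1))
    · by_cases h2 : Q₂ p.1 p.2.1 p.2.2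
      · exact Or.inl (Or.inr h2)
      · by_cases h3 : Q₃ p.1 p.2.1 p.2.2
        · exact Or.inr h3
        · exact Or.inl (Or.inl (Or.inl ⟨hp, h1, h2, h3⟩))
  · have h3 : ∀ S₁ S₂ S₃ S₄ : Finset (V × V × V), (S₁ ∪ S₂ ∪ S₃ ∪ S₄).card ≤
        S₁.card + S₂.card + S₃.card + S₄.card := by
      intro S₁ S₂ S₃ S₄
      have a1 := card_union_le (S₁ ∪ S₂ ∪ S₃) S₄
      have a2 := card_union_le (S₁ ∪ S₂) S₃
      have a3 := card_union_le S₁ S₂
      omega
    refine (h3 _ _ _ _).trans (le_of_eq ?_)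
    congr!

theorem cnt3_xy (Q : V → V → Prop) :
    cnt3 (fun x _ y => Q x y) ≤ Fintype.card V * cnt2 Q := by
  classical
  unfold cnt3 cnt2
  rw [← card_univ, ← card_product]
  refine card_le_card_of_injOn (fun p => (p.2.1, (p.1, p.2.2))) ?_ ?_
  · intro p hp
    simp only [coe_filter, mem_univ, true_and, Set.mem_ofPred_eq] at hp
    simp only [coe_product, Set.mem_prod, mem_coe, mem_univ, true_and, mem_filter]
    exact hp
  · rintro ⟨p, p', p''⟩ _ ⟨q, q', q''⟩ _ h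
    simp only [Prod.mk.injEq] at h ⊢
    tauto

theorem cnt3_x'y (Q : V → V → Prop) :
    cnt3 (fun _ x' y => Q x' y) ≤ Fintype.card V * cnt2 Q := by
  rw [cnt3_swap (fun x _ y => Q x y)]
  exact cnt3_xy Q

theorem cnt3_xx' (Q : V → V → Prop) :
    cnt3 (fun x x' _ => Q x x') ≤ Fintype.card V * cnt2 Q := by
  classical
  unfold cnt3 cnt2
  rw [← card_univ, ← card_product]
  refine card_le_card_of_injOn (fun p => (p.2.2, (p.1, p.2.1))) ?_ ?_
  · intro p hp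
    simp only [coe_filter, mem_univ, true_and, Set.mem_ofPred_eq] at hp
    simp only [coe_product, Set.mem_prod, mem_coe, mem_univ, true_and, mem_filter]
    exact hp
  · rintro ⟨p, p', p''⟩ _ ⟨q, q', q''⟩ _ h
    simp only [Prod.mk.injEq] at h ⊢
    tauto

end Cnt

theorem hasExp_mono {V : Type} [Fintype V] [DecidableEq V] {N : ℕ} {b : ℕ → ℕ}
    {A G : Finset (Finset V)} (hA : A ⊆ G) (h : HasExp N b A) : HasExp N b G := by
  obtain ⟨φ, ξ, h1, h2, h3, h4⟩ := h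
  exact ⟨φ, ξ, h1, h2, h3, fun e he => lk_mono hA _ _ (h4 e he)⟩

/-- ends of edges of `T_0` are vertices of `T_0` -/
theorem ends_S0 {in0 : ℕ → Prop} {b : ℕ → ℕ} (hd : ∀ i, in0 i → E0 in0 (bs b i)) :
    ∀ e, E0 in0 e → S0 in0 (ends b e).1 ∧ S0 in0 (ends b e).2 := by
  intro e
  induction e using Nat.strong_induction_on with
  | _ e ih =>
    rintro (rfl | ⟨i, hi, rfl | rfl⟩)
    · rw [ends_zero]
      exact ⟨Or.inl (by norm_num), Or.inl (by norm_num)⟩
    · rw [ends_odd]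
      have := bs_le b i
      exact ⟨Or.inr ⟨i, hi, rfl⟩, (ih (bs b i) (by omega) (hd i hi)).1⟩
    · rw [ends_even]
      have := bs_le b i
      exact ⟨Or.inr ⟨i, hi, rfl⟩, (ih (bs b i) (by omega) (hd i hi)).2⟩

theorem lk_symm {V : Type} [Fintype V] [DecidableEq V] (G : Finset (Finset V)) (x y : V) :
    lk G x y = lk G y x := by
  ext z
  simp only [lk, mem_filter, mem_univ, true_and]
  rw [swap12]

/-- the induction hypothesis of the local lemma -/
def PP (N : ℕ) (b : ℕ → ℕ) (k j : ℕ) : Prop :=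
  ∀ δ : ℝ, 0 < δ → ∃ n0 : ℕ, ∀ (V : Type) [Fintype V] [DecidableEq V] (G : Finset (Finset V)),
    n0 ≤ Fintype.card V → IsUniform 3 G → ∀ Z : Finset V, Z.card = j →
    δ * (Fintype.card V : ℝ) ^ 3 ≤ cnt3 (fun x x' y : V => (sh (2 * N + 1 - k) G x y ∧
      sh (2 * N + 1 - k) G x' y ∧ sh k G x x') ∧ Z ⊆ lk (kcore (2 * N + 1 - k) G) x y) →
    HasExp N b G

theorem ll_step (hHEAVY : HEAVY_S) (hALL : ALL_S) (hOMEGA : OMEGA_S) (hGROW : GROW_S)
    (hCORE : CORE_S) (hTZERO : TZERO_S) (hPEEL : PEEL_S) (N : ℕ) (b : ℕ → ℕ) (k c j : ℕ)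
    (hN : 2 ≤ N) (hb1 : b 1 = 0) (hk : 1 ≤ k) (hkN : k ≤ N) (hc : c ≤ 1)
    (hcc : (VC k b c).card ≤ (VC k b (1 - c)).card) (hj : j ≤ (VC k b c).card)
    (hnext : j < (VC k b c).card → PP N b k (j + 1)) : PP N b k j := by
  classical
  intro δ hδ
  obtain ⟨J, hJ, hJc⟩ := exists_subset_card_eq hj
  -- the constants
  obtain ⟨d0, hd0⟩ := exists_nat_ge (6 * (9 * N + 6) / δ)
  have hd0' : (9 * N + 6 : ℝ) ≤ d0 * (δ / 6) := by
    rw [div_le_iff₀ hδ] at hd0
    linarith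
  have hd0pos : (0 : ℝ) < d0 := by
    by_contra h
    have h1 : (d0 : ℝ) = 0 := le_antisymm (not_lt.1 h) (Nat.cast_nonneg _)
    rw [h1] at hd0'
    have : (0 : ℝ) ≤ N := Nat.cast_nonneg _
    linarith
  obtain ⟨c', M, δ', n1, hc', hδ', hΩ⟩ := hOMEGA N k b c J hN hb1 hk hkN hc hcc hJ (δ / 2) d0
    (by linarith)
  obtain ⟨hT0, -⟩ := hTZERO N k b c J hN hb1 hk hkN hc hJ
  obtain ⟨Dm, ε, n2, hε, hgr⟩ := hGROW N (2 * N + 1 - k) b (inT N k b) J (XT k b J) hN (by omega)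
    hT0 c' M (9 * N + 6) d0 hc'
  obtain ⟨n4, hall⟩ := hALL N b Dm ε hε
  have hn3 : ∃ n3 : ℕ, j < (VC k b c).card → ∀ (V : Type) [Fintype V] [DecidableEq V]
      (G : Finset (Finset V)),
      n3 ≤ Fintype.card V → IsUniform 3 G → ∀ Z : Finset V, Z.card = j + 1 →
      δ' * (Fintype.card V : ℝ) ^ 3 ≤ cnt3 (fun x x' y : V => (sh (2 * N + 1 - k) G x y ∧
        sh (2 * N + 1 - k) G x' y ∧ sh k G x x') ∧ Z ⊆ lk (kcore (2 * N + 1 - k) G) x y) →
      HasExp N b G := by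
    by_cases h : j < (VC k b c).card
    · obtain ⟨n3, hn3⟩ := hnext h δ' hδ'
      exact ⟨n3, fun _ => hn3⟩
    · exact ⟨0, fun h' => absurd h' h⟩
  obtain ⟨n3, hn3⟩ := hn3
  refine ⟨n1 + n2 + n3 + n4 + 1, ?_⟩
  intro V _ _ G hn hG Z hZ hcnt
  by_contra hno
  obtain ⟨hP1, -⟩ := hPEEL V G hG
  set A := kcore (2 * N + 1 - k) G with hAdef
  set B := kcore k G with hBdef
  have hA : A ⊆ G := (hP1 _).1
  have hB : B ⊆ G := (hP1 _).1
  have hAu : IsUniform 3 A := fun e he => hG e (hA he)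
  have hBu : IsUniform 3 B := fun e he => hG e (hB he)
  have hAc : IsCore (2 * N + 1 - k) A := (hP1 _).2
  have hBc : IsCore k B := (hP1 _).2
  -- few heavy pairs
  have hheavy : ∀ F : Finset (Finset V), F ⊆ G → ∀ D : ℕ,
      (D : ℝ) * cnt2 (fun x y : V => D < (lk F x y).card) ≤
        (9 * N + 6) * (Fintype.card V : ℝ) ^ 2 := by
    intro F hF D
    have h1 := (hHEAVY V N b G hG hno F hF).2 D
    have h2 : (9 * N + 6) * cnt2 (fun x y : V => (lk F x y).Nonempty) ≤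
        (9 * N + 6) * Fintype.card V ^ 2 := Nat.mul_le_mul_left _ (cnt2_le _)
    have h3 := h1.trans h2
    exact_mod_cast h3
  have hheavy' : ∀ F : Finset (Finset V), F ⊆ G →
      (cnt2 (fun x y : V => d0 < (lk F x y).card) : ℝ) ≤ δ / 6 * (Fintype.card V : ℝ) ^ 2 := by
    intro F hF
    have h1 := hheavy F hF d0
    have h2 : (9 * N + 6 : ℝ) * (Fintype.card V : ℝ) ^ 2 ≤
        d0 * (δ / 6) * (Fintype.card V : ℝ) ^ 2 := mul_le_mul_of_nonneg_right hd0' (by positivity)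
    have h3 : (d0 : ℝ) * cnt2 (fun x y : V => d0 < (lk F x y).card) ≤
        d0 * (δ / 6 * (Fintype.card V : ℝ) ^ 2) := by
      refine (h1.trans h2).trans (le_of_eq ?_)
      ring
    exact le_of_mul_le_mul_left h3 hd0pos
  -- the vertices `z`
  have : Nonempty V := by
    rw [← Fintype.card_pos_iff]
    omega
  have hz : ∃ z : ℕ → V, Set.InjOn z (J : Set ℕ) ∧ ∀ v ∈ J, z v ∈ Z := by
    let eq := Finset.equivOfCardEq (hJc.trans hZ.symm)
    refine ⟨fun v => if h : v ∈ J then (eq ⟨v, h⟩).1 else Classical.arbitrary V, ?_, ?_⟩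
    · intro v hv w hw hvw
      have hv' : v ∈ J := hv
      have hw' : w ∈ J := hw
      simp only [dif_pos hv', dif_pos hw'] at hvw
      have := eq.injective (Subtype.ext hvw)
      exact congrArg Subtype.val this
    · intro v hv
      simp only [dif_pos hv]
      exact (eq ⟨v, hv⟩).2
  obtain ⟨z, hzinj, hzZ⟩ := hz
  -- light triples
  have hlight : δ / 2 * (Fintype.card V : ℝ) ^ 3 ≤ cnt3 (fun x x' y : V =>
      ((lk A x y).Nonempty ∧ (lk A x' y).Nonempty ∧ (lk B x x').Nonempty) ∧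
        (lk A x y).card ≤ d0 ∧ (lk A x' y).card ≤ d0 ∧ (lk B x x').card ≤ d0 ∧
        ∀ v ∈ J, z v ∈ lk A x y) := by
    have h1 := cnt3_split (fun x x' y : V => (sh (2 * N + 1 - k) G x y ∧
      sh (2 * N + 1 - k) G x' y ∧ sh k G x x') ∧ Z ⊆ lk A x y)
      (fun x _ y => d0 < (lk A x y).card) (fun _ x' y => d0 < (lk A x' y).card)
      (fun x x' _ => d0 < (lk B x x').card)
    have h2 := cnt3_xy (fun x y : V => d0 < (lk A x y).card)
    have h3 := cnt3_x'y (fun x y : V => d0 < (lk A x y).card)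
    have h4 := cnt3_xx' (fun x y : V => d0 < (lk B x y).card)
    have h5 : cnt3 (fun x x' y : V => ((sh (2 * N + 1 - k) G x y ∧
        sh (2 * N + 1 - k) G x' y ∧ sh k G x x') ∧ Z ⊆ lk A x y) ∧ ¬ d0 < (lk A x y).card ∧
        ¬ d0 < (lk A x' y).card ∧ ¬ d0 < (lk B x x').card) ≤ cnt3 (fun x x' y : V =>
      ((lk A x y).Nonempty ∧ (lk A x' y).Nonempty ∧ (lk B x x').Nonempty) ∧
        (lk A x y).card ≤ d0 ∧ (lk A x' y).card ≤ d0 ∧ (lk B x x').card ≤ d0 ∧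
        ∀ v ∈ J, z v ∈ lk A x y) := by
      refine cnt3_mono ?_
      rintro x x' y ⟨⟨hs, hZs⟩, a1, a2, a3⟩
      exact ⟨hs, not_lt.1 a1, not_lt.1 a2, not_lt.1 a3, fun v hv => hZs (hzZ v hv)⟩
    have g1 := hheavy' A hA
    have g2 := hheavy' B hB
    have hVn : (0 : ℝ) ≤ Fintype.card V := Nat.cast_nonneg _
    have g3 : ((Fintype.card V * cnt2 (fun x y : V => d0 < (lk A x y).card) : ℕ) : ℝ) ≤
        δ / 6 * (Fintype.card V : ℝ) ^ 3 := by
      push_cast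
      calc (Fintype.card V : ℝ) * cnt2 (fun x y : V => d0 < (lk A x y).card) ≤
          Fintype.card V * (δ / 6 * (Fintype.card V : ℝ) ^ 2) :=
            mul_le_mul_of_nonneg_left g1 hVn
        _ = _ := by ring
    have g4 : ((Fintype.card V * cnt2 (fun x y : V => d0 < (lk B x y).card) : ℕ) : ℝ) ≤
        δ / 6 * (Fintype.card V : ℝ) ^ 3 := by
      push_cast
      calc (Fintype.card V : ℝ) * cnt2 (fun x y : V => d0 < (lk B x y).card) ≤
          Fintype.card V * (δ / 6 * (Fintype.card V : ℝ) ^ 2) :=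
            mul_le_mul_of_nonneg_left g2 hVn
        _ = _ := by ring
    have k1 : (cnt3 (fun x x' y : V => (sh (2 * N + 1 - k) G x y ∧
      sh (2 * N + 1 - k) G x' y ∧ sh k G x x') ∧ Z ⊆ lk A x y) : ℝ) ≤ cnt3 (fun x x' y : V =>
      ((lk A x y).Nonempty ∧ (lk A x' y).Nonempty ∧ (lk B x x').Nonempty) ∧
        (lk A x y).card ≤ d0 ∧ (lk A x' y).card ≤ d0 ∧ (lk B x x').card ≤ d0 ∧
        ∀ v ∈ J, z v ∈ lk A x y) +
        ((Fintype.card V * cnt2 (fun x y : V => d0 < (lk A x y).card) : ℕ) : ℝ) +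
        ((Fintype.card V * cnt2 (fun x y : V => d0 < (lk A x y).card) : ℕ) : ℝ) +
        ((Fintype.card V * cnt2 (fun x y : V => d0 < (lk B x y).card) : ℕ) : ℝ) := by
      have := h1.trans (Nat.add_le_add (Nat.add_le_add (Nat.add_le_add h5 h2) h3) h4)
      exact_mod_cast this
    linarith
  -- no popular set of size `j + 1`
  have hpop : J ≠ VC k b c → ∀ Z' : Finset V, Z'.card = J.card + 1 →
      (cnt3 (fun x x' y : V => ((lk A x y).Nonempty ∧ (lk A x' y).Nonempty ∧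
        (lk B x x').Nonempty) ∧ Z' ⊆ lk A x y) : ℝ) ≤ δ' * (Fintype.card V : ℝ) ^ 3 ∧
      (cnt3 (fun x x' y : V => ((lk A x y).Nonempty ∧ (lk A x' y).Nonempty ∧
        (lk B x x').Nonempty) ∧ Z' ⊆ lk A x' y) : ℝ) ≤ δ' * (Fintype.card V : ℝ) ^ 3 := by
    intro hne Z' hZ'
    have hlt : j < (VC k b c).card := by
      rw [← hJc]
      exact card_lt_card (lt_of_le_of_ne hJ hne)
    have h1 : (cnt3 (fun x x' y : V => ((lk A x y).Nonempty ∧ (lk A x' y).Nonempty ∧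
        (lk B x x').Nonempty) ∧ Z' ⊆ lk A x y) : ℝ) ≤ δ' * (Fintype.card V : ℝ) ^ 3 := by
      by_contra h
      push Not at h
      exact hno (hn3 hlt V G (by omega) hG Z' (by rw [hZ', hJc]) h.le)
    refine ⟨h1, ?_⟩
    have h2 : cnt3 (fun x x' y : V => ((lk A x y).Nonempty ∧ (lk A x' y).Nonempty ∧
        (lk B x x').Nonempty) ∧ Z' ⊆ lk A x' y) ≤ cnt3 (fun x x' y : V =>
        ((lk A x y).Nonempty ∧ (lk A x' y).Nonempty ∧
        (lk B x x').Nonempty) ∧ Z' ⊆ lk A x y) := by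
      rw [← cnt3_swap (fun x x' y : V => ((lk A x y).Nonempty ∧ (lk A x' y).Nonempty ∧
        (lk B x x').Nonempty) ∧ Z' ⊆ lk A x y)]
      refine cnt3_mono ?_
      rintro x x' y ⟨⟨a1, a2, a3⟩, a4⟩
      refine ⟨⟨a2, a1, ?_⟩, a4⟩
      rw [lk_symm]
      exact a3
    have h3 : (cnt3 (fun x x' y : V => ((lk A x y).Nonempty ∧ (lk A x' y).Nonempty ∧
        (lk B x x').Nonempty) ∧ Z' ⊆ lk A x' y) : ℝ) ≤ cnt3 (fun x x' y : V =>
        ((lk A x y).Nonempty ∧ (lk A x' y).Nonempty ∧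
        (lk B x x').Nonempty) ∧ Z' ⊆ lk A x y) := by exact_mod_cast h2
    exact h3.trans h1
  obtain ⟨Ω, R, ρ, hΩc, hΩs⟩ := hΩ V A B (fun x x' y => (lk A x y).Nonempty ∧
    (lk A x' y).Nonempty ∧ (lk B x x').Nonempty) z (by omega) hAu hBu hBc
    (fun x x' y h => h) hzinj hlight hpop
  obtain ⟨ω, hω, φ, d, hφ, hgood⟩ := hgr V A B z Ω R (by omega) hAu hAc
    (fun D => hheavy A hA D)
    (hall V A (by omega) hAu (fun h => hno (hasExp_mono hA h))) hΩc (fun ω hω => (hΩs ω hω).1)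
  obtain ⟨-, hp⟩ := hΩs ω hω
  -- transfer of `Pairs`
  have hS := ends_S0 (in0 := inT N k b) (b := b) (fun i hi => hT0.down i (hT0.inN i hi) hi)
  have hLs : ∀ e, E0 (inT N k b) e → Ls A B (XT k b J) b φ e =
      Ls A B (XT k b J) b (ini N J z ω) e := by
    intro e he
    obtain ⟨s1, s2⟩ := hS e he
    unfold Ls
    rw [hφ _ s1, hφ _ s2]
  have hXE : ∀ e, XT k b J e → E0 (inT N k b) e := fun e he => (hT0.xe e he).1
  refine hno (hCORE V G A B N k b c J φ (ρ ω) d (R ω) hG hA hB hN hb1 hk hkN hc hcc hJ hgood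
    ⟨?_, ?_, hp.rinj, ?_⟩)
  · intro e he
    rw [hLs e (hXE e he)]
    exact hp.xbig e he
  · intro e he
    rw [hLs e (hXE e he)]
    exact hp.rep e he
  · intro hJV e e' he he' h1 h2 h3 h4 h5
    rw [hLs e he, hLs e' he']
    exact hp.pair hJV e e' he he' h1 h2 h3 h4 h5

theorem ll (hHEAVY : HEAVY_S) (hALL : ALL_S) (hOMEGA : OMEGA_S) (hGROW : GROW_S)
    (hCORE : CORE_S) (hTZERO : TZERO_S) (hPEEL : PEEL_S) : LL_S := by
  classical
  intro N b k δ hN hb1 hk hkN hδ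
  obtain ⟨c, hc, hcc⟩ : ∃ c, c ≤ 1 ∧ (VC k b c).card ≤ (VC k b (1 - c)).card := by
    by_cases h : (VC k b 0).card ≤ (VC k b 1).card
    · exact ⟨0, by norm_num, h⟩
    · exact ⟨1, le_rfl, (not_le.1 h).le⟩
  have key : ∀ i j, j + i = (VC k b c).card → PP N b k j := by
    intro i
    induction i with
    | zero =>
      intro j hj
      exact ll_step hHEAVY hALL hOMEGA hGROW hCORE hTZERO hPEEL N b k c j hN hb1 hk hkN hc hcc
        (by omega) (fun h => by omega)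
    | succ i ih =>
      intro j hj
      exact ll_step hHEAVY hALL hOMEGA hGROW hCORE hTZERO hPEEL N b k c j hN hb1 hk hkN hc hcc
        (by omega) (fun _ => ih (j + 1) (by omega))
  obtain ⟨n0, hn0⟩ := key (VC k b c).card 0 (by omega) δ hδ
  refine ⟨n0, ?_⟩
  intro V _ _ G hn hG hcnt
  refine hn0 V G hn hG ∅ card_empty (hcnt.trans ?_)
  have : cnt3 (fun x x' y : V => sh (2 * N + 1 - k) G x y ∧
    sh (2 * N + 1 - k) G x' y ∧ sh k G x x') ≤ cnt3 (fun x x' y : V =>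
      (sh (2 * N + 1 - k) G x y ∧
      sh (2 * N + 1 - k) G x' y ∧ sh k G x x') ∧ ∅ ⊆ lk (kcore (2 * N + 1 - k) G) x y) :=
    cnt3_mono fun x x' y h => ⟨h, empty_subset _⟩
  exact_mod_cast this

end MP_182bbb_co.TT.H72
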