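import Pool.Agent.Lib.MP_182bbb_co.TT.H72.Core

/-! STAR: the inequality (*); CORE0: a good placement gives the expansion (`k = 0`). -/

open Finset

namespace MP_182bbb_co.TT.H72

open MP_182bbb_co.H5

theorem star_ineq (hROOT : ROOT_S) (hROOT0 : ROOT0_S) : STAR_S := by
  classical
  intro V _ _ A B N s b in0 J X φ d R hT hG e he hed U hU1 hU2 hU3 hU4
  obtain ⟨-, -, q3, q4, q5, q6, q7⟩ := hROOT b
  obtain ⟨r1, r2, -⟩ := hROOT0 b in0 (fun j hj => hT.down j (hT.inN j hj) hj)
  set L : ℕ → Finset V := Ls A B X b φ with hL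
  have e1 : ((range (2 * N + 1)).filter (fun f => (L f).card ≤ d)).card =
      ∑ x ∈ range (2 * N + 1), (if (L x).card ≤ d then 1 else 0) := by
    rw [card_filter]
  have e2 : ((range (N + 2)).filter (fun v => φ v ∈ U)).card =
      ∑ v ∈ range (N + 2), (if φ v ∈ U then 1 else 0) := by
    rw [card_filter]
  have e3 : tJ N b in0 J =
      ∑ i ∈ range N, (if in0 i ∧ (i + 2 ∈ J ∨ pA b i ∈ J ∨ pB b i ∈ J) then 1 else 0) := by
    unfold tJ
    rw [card_filter]
  have s1 := q3 N e (fun x => if (L x).card ≤ d then 1 else 0) he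
  have s2 := q4 N e (fun v => if φ v ∈ U then 1 else 0) he
  simp only [if_neg hU1, if_neg hU2, if_pos hed, zero_add] at s1 s2
  have key : ∀ i ∈ range N, ((if (L (ch1 b e i)).card ≤ d then 1 else 0) +
      (if (L (ch2 b e i)).card ≤ d then 1 else 0)) + (if φ (nv b e i) ∈ U then 1 else 0) +
      (if in0 i ∧ (i + 2 ∈ J ∨ pA b i ∈ J ∨ pB b i ∈ J) then 1 else 0) ≤ 2 := by
    intro i hi
    rw [mem_range] at hi
    have t5 := q5 e i
    have t6 := q6 e i
    obtain ⟨p, q, h7a, h7b, h7c⟩ := q7 e i
    have hle : ∀ x ∈ ({en b e i, ch1 b e i, ch2 b e i} : Finset ℕ), x ≤ 2 * N := by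
      intro x hx
      rw [t5] at hx
      simp only [mem_insert, mem_singleton] at hx
      have := bs_le b i
      rcases hx with rfl | rfl | rfl <;> omega
    by_cases hin : in0 i
    · obtain ⟨r2a, r2b, r2c, r2d⟩ := r2 e i hin
      by_cases hm : i + 2 ∈ J ∨ pA b i ∈ J ∨ pB b i ∈ J
      · have hpos : in0 i ∧ (i + 2 ∈ J ∨ pA b i ∈ J ∨ pB b i ∈ J) := ⟨hin, hm⟩
        rw [if_pos hpos]
        have hm' : nv b e i ∈ J ∨ p ∈ J ∨ q ∈ J := by
          have h1 : ∃ v ∈ ({i + 2, pA b i, pB b i} : Finset ℕ), v ∈ J := by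
            rcases hm with h | h | h
            · exact ⟨_, by simp, h⟩
            · exact ⟨_, by simp, h⟩
            · exact ⟨_, by simp, h⟩
          rw [← t6] at h1
          obtain ⟨v, hv, hvJ⟩ := h1
          simp only [mem_insert, mem_singleton] at hv
          rcases h7a with h7a | h7a
          · rw [h7a] at hv
            rcases hv with rfl | rfl | rfl
            · exact Or.inl hvJ
            · exact Or.inr (Or.inl hvJ)
            · exact Or.inr (Or.inr hvJ)
          · rw [h7a] at hv
            rcases hv with rfl | rfl | rfl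
            · exact Or.inl hvJ
            · exact Or.inr (Or.inr hvJ)
            · exact Or.inr (Or.inl hvJ)
        have c1 : (nv b e i ∈ J ∨ p ∈ J) → ¬ (L (ch1 b e i)).card ≤ d := by
          intro h
          have : hitJ b J (ch1 b e i) := by
            unfold hitJ
            rcases h7b with h7 | h7
            · rw [h7]; exact h
            · rw [h7]; exact h.symm
          exact not_le.2 (hG.heavyJ _ (hle _ (by simp)) r2c this)
        have c2 : (nv b e i ∈ J ∨ q ∈ J) → ¬ (L (ch2 b e i)).card ≤ d := by
          intro h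
          have : hitJ b J (ch2 b e i) := by
            unfold hitJ
            rcases h7c with h7 | h7
            · rw [h7]; exact h
            · rw [h7]; exact h.symm
          exact not_le.2 (hG.heavyJ _ (hle _ (by simp)) r2d this)
        by_cases hn : nv b e i ∈ J
        · rw [if_neg (c1 (Or.inl hn)), if_neg (c2 (Or.inl hn))]
          split_ifs <;> omega
        · have hU' : ¬ φ (nv b e i) ∈ U := fun h => hn (hU3 i hi hin h)
          rw [if_neg hU']
          rcases hm' with h | h | h
          · exact absurd h hn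
          · rw [if_neg (c1 (Or.inr h))]
            split_ifs <;> omega
          · rw [if_neg (c2 (Or.inr h))]
            split_ifs <;> omega
      · have h0 : ¬ (in0 i ∧ (i + 2 ∈ J ∨ pA b i ∈ J ∨ pB b i ∈ J)) := fun h => hm h.2
        have hU' : ¬ φ (nv b e i) ∈ U := by
          intro h
          have h1 := hU3 i hi hin h
          have h2 : nv b e i ∈ ({i + 2, pA b i, pB b i} : Finset ℕ) := by
            rw [← t6]
            simp
          simp only [mem_insert, mem_singleton] at h2
          rcases h2 with h2 | h2 | h2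
          · exact hm (Or.inl (h2 ▸ h1))
          · exact hm (Or.inr (Or.inl (h2 ▸ h1)))
          · exact hm (Or.inr (Or.inr (h2 ▸ h1)))
        rw [if_neg h0, if_neg hU']
        split_ifs <;> omega
    · have h0 : ¬ (in0 i ∧ (i + 2 ∈ J ∨ pA b i ∈ J ∨ pB b i ∈ J)) := fun h => hin h.1
      rw [if_neg h0]
      by_cases hU' : φ (nv b e i) ∈ U
      · have h1 := hU4 i hi hin hU'
        rw [if_pos hU']
        have h2 : ∃ x ∈ ({bs b i, 2 * i + 1, 2 * i + 2} : Finset ℕ), d < (L x).card := by
          rcases hG.real i hi hin with h | h | h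
          · exact ⟨_, by simp, h⟩
          · exact ⟨_, by simp, h⟩
          · exact ⟨_, by simp, h⟩
        rw [← t5] at h2
        obtain ⟨x, hx, hxd⟩ := h2
        simp only [mem_insert, mem_singleton] at hx
        rcases hx with rfl | rfl | rfl
        · exact absurd h1 (not_le.2 hxd)
        · rw [if_neg (not_le.2 hxd)]
          split_ifs <;> omega
        · rw [if_neg (not_le.2 hxd)]
          split_ifs <;> omega
      · rw [if_neg hU']
        split_ifs <;> omega
  have hsum := sum_le_sum key
  rw [sum_add_distrib, sum_add_distrib, ← e3] at hsum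
  simp only [sum_const, card_range, smul_eq_mul] at hsum
  have goal : ((range (2 * N + 1)).filter (fun f => (L f).card ≤ d)).card +
      ((range (N + 2)).filter (fun v => φ v ∈ U)).card + tJ N b in0 J ≤ 2 * N + 1 := by
    rw [e1, e2]
    omega
  convert goal using 3

theorem core0 (hFIN : FIN_S) (hSTAR : STAR_S) : CORE0_S := by
  classical
  intro V _ _ G A N b φ d R hG hA hN hgood
  have hT0 : Tree0 N b (fun _ => False) ∅ (fun _ => False) :=
    ⟨fun _ _ h => h.elim, fun _ h => h.elim, fun _ _ _ h => h.elim, fun _ h => h.elim,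
      fun v hv => absurd hv (notMem_empty v), fun e h => notMem_empty _ h.1⟩
  set L : ℕ → Finset V := Ls A A (fun _ => False) b φ with hL
  set Λ : Finset ℕ := (range (2 * N + 1)).filter (fun f => (L f).card ≤ d) with hΛ
  have hLsub : ∀ e, L e ⊆ lk G (φ (ends b e).1) (φ (ends b e).2) := by
    intro e
    rw [hL]
    unfold Ls
    split_ifs
    · exact lk_mono hA _ _
    · exact lk_mono hA _ _
  have hLends : ∀ e v, isEnd b e v → φ v ∉ L e := by
    intro e v hv h
    have h1 := hLsub e h
    rcases hv with rfl | rfl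
    · exact (not_mem_lk hG _ _).1 h1
    · exact (not_mem_lk hG _ _).2 h1
  refine hFIN V G N b φ L Λ hgood.inj (fun e _ => hLsub e) ?_ ?_
  · intro e he heΛ
    have h1 : ¬ (L e).card ≤ d := fun h => heΛ (by
      rw [hΛ, mem_filter, mem_range]
      exact ⟨by omega, h⟩)
    rcases hgood.gap e he with h | h
    · exact absurd h h1
    · exact h
  intro F hF
  by_contra hcon
  push Not at hcon
  have hFc : F.card ≤ Λ.card := card_le_card hF
  have hne : F.Nonempty := by
    rw [← card_pos]
    omega
  obtain ⟨e, heF⟩ := hne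
  have he := hF heF
  rw [hΛ, mem_filter, mem_range] at he
  have heN : e ≤ 2 * N := by omega
  have hst := hSTAR V A A N (2 * N + 1) b (fun _ => False) ∅ (fun _ => False) φ d R hT0 hgood e
    heN he.2 (L e) (hLends e _ (Or.inl rfl)) (hLends e _ (Or.inr rfl))
    (fun i hi hin h => hgood.acc0 e heN he.2 i hi hin h)
    (fun i hi hin h => hgood.acc1 e heN he.2 i hi hin h)
  have hst' : Λ.card + ((range (N + 2)).filter (fun v => φ v ∈ L e)).card +
      tJ N b (fun _ => False) ∅ ≤ 2 * N + 1 := by
    convert hst using 3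
  have hbig : 2 * N + 1 ≤ (L e).card := hgood.big e heN (fun h => h)
  have h1 : L e \ (range (N + 2)).image φ ⊆
      F.biUnion (fun e => L e \ (range (N + 2)).image φ) := by
    intro u hu
    rw [mem_biUnion]
    exact ⟨e, heF, hu⟩
  have h2 := card_le_card h1
  have h3 : L e ∩ (range (N + 2)).image φ ⊆
      ((range (N + 2)).filter (fun v => φ v ∈ L e)).image φ := by
    intro u hu
    rw [mem_inter, mem_image] at hu
    obtain ⟨hu1, v, hv, rfl⟩ := hu
    rw [mem_image]
    exact ⟨v, mem_filter.2 ⟨hv, hu1⟩, rfl⟩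
  have h4 := (card_le_card h3).trans card_image_le
  have h5 := card_sdiff_add_card_inter (L e) ((range (N + 2)).image φ)
  omega

end MP_182bbb_co.TT.H72
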