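import Pool.Agent.Lib.MP_182bbb_co.TT.Iface

/-! CORE: a good placement gives the expansion (`k ≥ 1`). -/

open Finset

namespace MP_182bbb_co.TT.H72

open MP_182bbb_co.H5

theorem not_mem_lk {V : Type} [Fintype V] [DecidableEq V] {G : Finset (Finset V)}
    (hG : IsUniform 3 G) (x y : V) : x ∉ lk G x y ∧ y ∉ lk G x y := by
  constructor
  · intro h
    simp only [lk, mem_filter, mem_univ, true_and] at h
    have h1 := hG _ h
    have h2 : ({x, y, x} : Finset V) = {x, y} := by ext w; simp; tauto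
    rw [h2] at h1
    have h3 := card_le_two (a := x) (b := y)
    omega
  · intro h
    simp only [lk, mem_filter, mem_univ, true_and] at h
    have h1 := hG _ h
    have h2 : ({x, y, y} : Finset V) = {x, y} := by ext w; simp
    rw [h2] at h1
    have h3 := card_le_two (a := x) (b := y)
    omega

theorem lk_mono {V : Type} [Fintype V] [DecidableEq V] {A G : Finset (Finset V)}
    (hA : A ⊆ G) (x y : V) : lk A x y ⊆ lk G x y := by
  intro z hz
  simp only [lk, mem_filter, mem_univ, true_and] at hz ⊢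
  exact hA hz

theorem exists_other (hT : TREE_S) (b : ℕ → ℕ) {e p : ℕ} (h : isEnd b e p) :
    ∃ z, z ≠ p ∧ ∀ v, isEnd b e v ↔ v = p ∨ v = z := by
  have hne := ((hT b).1 e).2.2
  rcases h with h | h
  · refine ⟨(ends b e).2, by rw [h]; exact hne.symm, fun v => ?_⟩
    unfold isEnd
    rw [h]
  · refine ⟨(ends b e).1, by rw [h]; exact hne, fun v => ?_⟩
    unfold isEnd
    rw [h]
    tauto

theorem edge_ext (hT : TREE_S) (b : ℕ → ℕ) {e f : ℕ} {p z : ℕ}
    (he : ∀ v, isEnd b e v ↔ v = p ∨ v = z) (hf : ∀ v, isEnd b f v ↔ v = p ∨ v = z) : e = f := by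
  refine (hT b).2.2.2.2.2 e f ?_ ?_
  · rw [he, ← hf]
    exact Or.inl rfl
  · rw [he, ← hf]
    exact Or.inr rfl

/-- a star with centre `a` on the vertex set `W` has fewer than `|W|` edges -/
theorem star_lt (hT : TREE_S) (b : ℕ → ℕ) (F : Finset ℕ) (W : Finset ℕ)
    (hF : ∀ e ∈ F, ∀ v, isEnd b e v → v ∈ W) (a : ℕ) (ha : a ∈ W)
    (hs : ∀ e ∈ F, isEnd b e a) : F.card < W.card := by
  classical
  choose! z hz using fun e (he : e ∈ F) => exists_other hT b (hs e he)
  have h1 : F.card ≤ (W.erase a).card := by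
    refine card_le_card_of_injOn z ?_ ?_
    · intro e he
      have he' : e ∈ F := he
      show z e ∈ W.erase a
      rw [mem_erase]
      exact ⟨(hz e he').1, hF e he' _ (((hz e he').2 _).2 (Or.inr rfl))⟩
    · intro e he f hf hef
      have he' : e ∈ F := he
      have hf' : f ∈ F := hf
      refine edge_ext hT b (hz e he').2 ?_
      have hef' : z e = z f := hef
      rw [hef']
      exact (hz f hf').2
  rw [card_erase_of_mem ha] at h1
  have := card_pos.2 ⟨a, ha⟩
  omega

theorem disj_pair (hT : TREE_S) (b : ℕ → ℕ) (F W : Finset ℕ) (X : ℕ → Prop)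
    (hF : ∀ e ∈ F, ∀ v, isEnd b e v → v ∈ W) (hcard : W.card ≤ F.card) (h4 : 4 ≤ F.card)
    (hX : ∀ e ∈ F, (X e ↔ col b (ends b e).1 ≠ 2 ∧ col b (ends b e).2 ≠ 2))
    (hnX : ∃ e ∈ F, ¬ X e) :
    ∃ e₁ ∈ F, ¬ X e₁ ∧ ∃ e₂ ∈ F, ¬ isEnd b e₁ (ends b e₂).1 ∧ ¬ isEnd b e₁ (ends b e₂).2 := by
  classical
  by_contra hcon
  have H : ∀ e₁ ∈ F, ¬ X e₁ → ∀ e₂ ∈ F, ∃ v, isEnd b e₁ v ∧ isEnd b e₂ v := by
    intro e₁ h1 hx e₂ h2
    by_contra h
    push Not at h
    exact hcon ⟨e₁, h1, hx, e₂, h2, fun h' => h _ h' (Or.inl rfl), fun h' => h _ h' (Or.inr rfl)⟩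
  obtain ⟨f, hf, hfX⟩ := hnX
  have hq : ∃ q, isEnd b f q ∧ col b q = 2 := by
    rw [hX f hf] at hfX
    by_cases h1 : col b (ends b f).1 = 2
    · exact ⟨_, Or.inl rfl, h1⟩
    · by_cases h2 : col b (ends b f).2 = 2
      · exact ⟨_, Or.inr rfl, h2⟩
      · exact absurd ⟨h1, h2⟩ hfX
  obtain ⟨q, hfq, hq2⟩ := hq
  obtain ⟨p, hpq, hfe⟩ := exists_other hT b hfq
  have hqX : ∀ e ∈ F, isEnd b e q → ¬ X e := by
    intro e he h hx
    rw [hX e he] at hx
    rcases h with h | h
    · rw [← h] at hx
      exact hx.1 hq2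
    · rw [← h] at hx
      exact hx.2 hq2
  have hfp : isEnd b f p := (hfe p).2 (Or.inr rfl)
  have hall : ∀ e ∈ F, isEnd b e p ∨ isEnd b e q := by
    intro e he
    obtain ⟨v, hv1, hv2⟩ := H f hf hfX e he
    rcases (hfe v).1 hv1 with rfl | rfl
    · exact Or.inr hv2
    · exact Or.inl hv2
  -- edges not at `q`, not at `p`
  have h1 : ∃ e' ∈ F, ¬ isEnd b e' q := by
    by_contra h
    push Not at h
    have := star_lt hT b F W hF q (hF f hf q hfq) h
    omega
  have h2 : ∃ e'' ∈ F, ¬ isEnd b e'' p := by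
    by_contra h
    push Not at h
    have := star_lt hT b F W hF p (hF f hf p hfp) h
    omega
  obtain ⟨e', he', he'q⟩ := h1
  obtain ⟨e'', he'', he''p⟩ := h2
  have he'p : isEnd b e' p := (hall e' he').resolve_right he'q
  have he''q : isEnd b e'' q := (hall e'' he'').resolve_left he''p
  obtain ⟨x, hxp, hex⟩ := exists_other hT b he'p
  obtain ⟨y, hyq, hey⟩ := exists_other hT b he''q
  have hsub : F ⊆ {f, e', e''} := by
    intro e he
    rw [mem_insert, mem_insert, mem_singleton]
    by_cases hp : isEnd b e p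
    · by_cases hq' : isEnd b e q
      · left
        obtain ⟨z, hz, hze⟩ := exists_other hT b hq'
        have : p = z := ((hze p).1 hp).resolve_left hpq
        rw [← this] at hze
        exact edge_ext hT b hze hfe
      · right; left
        obtain ⟨z, hz, hze⟩ := exists_other hT b hp
        -- `e` meets `e''`, `e'` meets `e''`
        obtain ⟨v, hv1, hv2⟩ := H e'' he'' (hqX e'' he'' he''q) e he
        obtain ⟨v', hv1', hv2'⟩ := H e'' he'' (hqX e'' he'' he''q) e' he'
        have a1 : v = y := by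
          rcases (hey v).1 hv1 with rfl | h
          · exact absurd hv2 hq'
          · exact h
        have a2 : v = z := by
          rcases (hze v).1 hv2 with rfl | h
          · exact absurd hv1 he''p
          · exact h
        have a3 : v' = y := by
          rcases (hey v').1 hv1' with rfl | h
          · exact absurd hv2' he'q
          · exact h
        have a4 : v' = x := by
          rcases (hex v').1 hv2' with rfl | h
          · exact absurd hv1' he''p
          · exact h
        have : z = x := by rw [← a2, a1, ← a3, a4]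
        rw [this] at hze
        exact edge_ext hT b hze hex
    · right; right
      have hq' : isEnd b e q := (hall e he).resolve_left hp
      obtain ⟨z, hz, hze⟩ := exists_other hT b hq'
      obtain ⟨v, hv1, hv2⟩ := H e he (hqX e he hq') e' he'
      obtain ⟨v', hv1', hv2'⟩ := H e'' he'' (hqX e'' he'' he''q) e' he'
      have a1 : v = z := by
        rcases (hze v).1 hv1 with rfl | h
        · exact absurd hv2 he'q
        · exact h
      have a2 : v = x := by
        rcases (hex v).1 hv2 with rfl | h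
        · exact absurd hv1 hp
        · exact h
      have a3 : v' = y := by
        rcases (hey v').1 hv1' with rfl | h
        · exact absurd hv2' he'q
        · exact h
      have a4 : v' = x := by
        rcases (hex v').1 hv2' with rfl | h
        · exact absurd hv1' he''p
        · exact h
      have : z = y := by rw [← a1, a2, ← a4, a3]
      rw [this] at hze
      exact edge_ext hT b hze hey
  have h3 := card_le_card hsub
  have h5 := card_le_three (a := f) (b := e') (c := e'')
  omega

theorem core (hTREE : TREE_S) (hROOT0 : ROOT0_S) (hTZERO : TZERO_S) (hFIN : FIN_S)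
    (hSTAR : STAR_S) : CORE_S := by
  classical
  intro V _ _ G A B N k b c J φ ρ d R hG hA hB hN hb1 hk hkN hc hcc hJ hgood hpairs
  obtain ⟨hT0, hk0, hk02, hcount, hJt, hJk, hXJ, hJ2, hXcol⟩ :=
    hTZERO N k b c J hN hb1 hk hkN hc hJ
  obtain ⟨r1, r2, r3, -, -, -, -, -, -, -, -, r12, -⟩ := hROOT0 b (inT N k b) (fun j hj =>
    hT0.down j (hT0.inN j hj) hj)
  set L : ℕ → Finset V := Ls A B (XT k b J) b φ with hL
  set Λ : Finset ℕ := (range (2 * N + 1)).filter (fun f => (L f).card ≤ d) with hΛ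
  have hLsub : ∀ e, L e ⊆ lk G (φ (ends b e).1) (φ (ends b e).2) := by
    intro e
    rw [hL]
    unfold Ls
    split_ifs
    · exact lk_mono hB _ _
    · exact lk_mono hA _ _
  have hLends : ∀ e v, isEnd b e v → φ v ∉ L e := by
    intro e v hv h
    have h1 := hLsub e h
    rcases hv with rfl | rfl
    · exact (not_mem_lk hG _ _).1 h1
    · exact (not_mem_lk hG _ _).2 h1
  refine hFIN V G N b φ L Λ hgood.inj (fun e _ => hLsub e) ?_ ?_
  · intro e he heΛ
    have h1 : ¬ (L e).card ≤ d := fun h => heΛ (by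
      rw [hΛ, mem_filter, mem_range]
      exact ⟨by omega, h⟩)
    rcases hgood.gap e he with h | h
    · exact absurd h h1
    · exact h
  intro F hF
  by_contra hcon
  push Not at hcon
  have hΛm : ∀ e ∈ Λ, e ≤ 2 * N ∧ (L e).card ≤ d := by
    intro e he
    rw [hΛ, mem_filter, mem_range] at he
    exact ⟨by omega, he.2⟩
  have hFc : F.card ≤ Λ.card := card_le_card hF
  -- sets covered by the lists of `F`
  have hU : ∀ U : Finset V, (∀ u ∈ U, ∃ e ∈ F, u ∈ L e) →
      U.card + 1 ≤ F.card + ((range (N + 2)).filter (fun v => φ v ∈ U)).card := by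
    intro U hUF
    have h1 : U \ (range (N + 2)).image φ ⊆
        F.biUnion (fun e => L e \ (range (N + 2)).image φ) := by
      intro u hu
      rw [mem_sdiff] at hu
      obtain ⟨e, he, hue⟩ := hUF u hu.1
      rw [mem_biUnion]
      exact ⟨e, he, mem_sdiff.2 ⟨hue, hu.2⟩⟩
    have h2 := card_le_card h1
    have h3 : U ∩ (range (N + 2)).image φ ⊆
        ((range (N + 2)).filter (fun v => φ v ∈ U)).image φ := by
      intro u hu
      rw [mem_inter, mem_image] at hu
      obtain ⟨hu1, v, hv, rfl⟩ := hu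
      rw [mem_image]
      exact ⟨v, mem_filter.2 ⟨hv, hu1⟩, rfl⟩
    have h4 := (card_le_card h3).trans card_image_le
    have h5 := card_sdiff_add_card_inter U ((range (N + 2)).image φ)
    omega
  by_cases hFX : ∀ e ∈ F, XT k b J e
  · -- only `X`-edges
    have h1 : F.card ≤ (F.biUnion (fun e => L e \ (range (N + 2)).image φ)).card := by
      refine card_le_card_of_injOn ρ ?_ ?_
      · intro e he
        have he' : e ∈ F := he
        obtain ⟨h1, h2⟩ := hpairs.rep e (hFX e he')
        show ρ e ∈ F.biUnion (fun e => L e \ (range (N + 2)).image φ)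
        rw [mem_biUnion]
        refine ⟨e, he', mem_sdiff.2 ⟨h1, ?_⟩⟩
        intro h3
        rw [mem_image] at h3
        obtain ⟨v, hv, hv'⟩ := h3
        rw [mem_range] at hv
        refine hgood.avoid v (by omega) ?_
        rw [hv']
        exact h2
      · intro e he f hf hef
        exact hpairs.rinj e f (hFX e he) (hFX f hf) hef
    omega
  push Not at hFX
  obtain ⟨e, heF, heX⟩ := hFX
  have he := hΛm e (hF heF)
  have hst := hSTAR V A B N (2 * N + 1 - k) b (inT N k b) J (XT k b J) φ d R hT0 hgood e he.1 he.2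
    (L e) (hLends e _ (Or.inl rfl)) (hLends e _ (Or.inr rfl))
    (fun i hi hin h => hgood.acc0 e he.1 he.2 i hi hin h)
    (fun i hi hin h => hgood.acc1 e he.1 he.2 i hi hin h)
  have hUe := hU (L e) (fun u hu => ⟨e, heF, hu⟩)
  have hbig : 2 * N + 1 - k ≤ (L e).card := hgood.big e he.1 heX
  have hst' : Λ.card + ((range (N + 2)).filter (fun v => φ v ∈ L e)).card +
      tJ N b (inT N k b) J ≤ 2 * N + 1 := by
    convert hst using 3
  by_cases hJV : J = VC k b c
  · have := hJk hJV
    omega
  have hJ2' := hJ2 hJV hcc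
  -- the edges of `T_0` not hitting `J`
  set E' : Finset ℕ := (range (2 * N + 1)).filter
    (fun e => E0 (inT N k b) e ∧ ¬ hitJ b J e) with hE'
  have hE'c : E'.card + tJ N b (inT N k b) J + J.card = 2 * k0 N (inT N k b) + 1 := by
    convert hcount using 3
  have hE'Λ : E' ⊆ Λ := by
    intro f hf
    rw [hE', mem_filter, mem_range] at hf
    rw [hΛ, mem_filter, mem_range]
    exact ⟨hf.1, hgood.light0 f (by omega) hf.2.1 hf.2.2⟩
  have hF0 : (F ∩ E').card + (F ∪ E').card = F.card + E'.card := card_inter_add_card_union F E'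
  have hF0' : (F ∪ E').card ≤ Λ.card := card_le_card (union_subset hF hE'Λ)
  have hF0m : ∀ f ∈ F ∩ E', f ∈ F ∧ f ≤ 2 * N ∧ (L f).card ≤ d ∧ E0 (inT N k b) f ∧
      ¬ hitJ b J f := by
    intro f hf
    rw [mem_inter] at hf
    have h1 := hΛm f (hF hf.1)
    have h2 := hf.2
    rw [hE', mem_filter] at h2
    exact ⟨hf.1, h1.1, h1.2, h2.2.1, h2.2.2⟩
  -- the vertices
  set W0 : Finset ℕ := insert 0 (insert 1 (((range N).filter (inT N k b)).image (fun i => i + 2)))
    with hW0
  have hW0m : ∀ v, S0 (inT N k b) v → v ∈ W0 := by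
    intro v hv
    rw [hW0, mem_insert, mem_insert, mem_image]
    rcases hv with hv | ⟨i, hi, rfl⟩
    · omega
    · exact Or.inr (Or.inr ⟨i, mem_filter.2 ⟨mem_range.2 (hT0.inN i hi), hi⟩, rfl⟩)
  have hW0c : W0.card ≤ k0 N (inT N k b) + 2 := by
    have h1 : (((range N).filter (inT N k b)).image (fun i => i + 2)).card ≤
        k0 N (inT N k b) := by
      refine card_image_le.trans ?_
      unfold k0
      apply le_of_eq
      congr 1
    have h2 := card_insert_le 0 (insert 1
      (((range N).filter (inT N k b)).image (fun i => i + 2)))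
    have h3 := card_insert_le 1 (((range N).filter (inT N k b)).image (fun i => i + 2))
    rw [hW0]
    omega
  have hWc : (W0 \ J).card + J.card ≤ k0 N (inT N k b) + 2 := by
    have h1 : J ⊆ W0 := fun v hv => hW0m v (hT0.js v hv)
    rw [card_sdiff_add_card_eq_card h1]
    exact hW0c
  have hFW : ∀ f ∈ F ∩ E', ∀ v, isEnd b f v → v ∈ W0 \ J := by
    intro f hf v hv
    obtain ⟨-, -, -, hf0, hfJ⟩ := hF0m f hf
    have h1 := r1 f hf0
    rw [mem_sdiff]
    rcases hv with rfl | rfl
    · exact ⟨hW0m _ h1.1, fun h => hfJ (Or.inl h)⟩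
    · exact ⟨hW0m _ h1.2, fun h => hfJ (Or.inr h)⟩
  have hnX : ∃ f ∈ F ∩ E', ¬ XT k b J f := by
    by_contra h
    push Not at h
    have h1 : F ∩ E' ⊆ (range (2 * N + 1)).filter (fun e => XT k b J e) := by
      intro f hf
      have := (hF0m f hf).2.1
      rw [mem_filter, mem_range]
      exact ⟨by omega, h f hf⟩
    have h2 := card_le_card h1
    have h3 : ((range (2 * N + 1)).filter (fun e => XT k b J e)).card + J.card ≤ k := by
      convert hXJ using 3
    omega
  obtain ⟨e₁, he₁, he₁X, e₂, he₂, hd1, hd2⟩ := disj_pair hTREE b (F ∩ E') (W0 \ J) (XT k b J) hFW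
    (by omega) (by omega) (fun f hf => hXcol f (hF0m f hf).2.2.2.1 (hF0m f hf).2.2.2.2) hnX
  obtain ⟨m1F, m1N, m1d, m1E, m1J⟩ := hF0m e₁ he₁
  obtain ⟨m2F, m2N, m2d, m2E, m2J⟩ := hF0m e₂ he₂
  have hint : (L e₁ ∩ L e₂).card ≤ J.card := hpairs.pair hJV e₁ e₂ m1E m2E m1J m2J he₁X hd1 hd2
  -- vertices of `T_0` in the lists
  have hS : ∀ f, f ≤ 2 * N → (L f).card ≤ d → E0 (inT N k b) f → ∀ v, S0 (inT N k b) v →
      φ v ∈ L f → v ∈ J := by
    intro f hfN hfd hfE v hv hvL
    rcases r12 f v hfE hv with h | ⟨i, hi, rfl⟩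
    · exact absurd hvL (hLends f v h)
    · exact hgood.acc0 f hfN hfd i (hT0.inN i hi) hi hvL
  have hst2 := hSTAR V A B N (2 * N + 1 - k) b (inT N k b) J (XT k b J) φ d R hT0 hgood e₁ m1N
    m1d (L e₁ ∪ L e₂) (by
      rw [mem_union]
      rintro (h | h)
      · exact hLends e₁ _ (Or.inl rfl) h
      · exact m1J (Or.inl (hS e₂ m2N m2d m2E _ (r1 e₁ m1E).1 h))) (by
      rw [mem_union]
      rintro (h | h)
      · exact hLends e₁ _ (Or.inr rfl) h
      · exact m1J (Or.inr (hS e₂ m2N m2d m2E _ (r1 e₁ m1E).2 h))) (by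
      intro i hi hin h
      rw [mem_union] at h
      have h1 := (r2 e₁ i hin).1
      rcases h with h | h
      · exact hS e₁ m1N m1d m1E _ h1 h
      · exact hS e₂ m2N m2d m2E _ h1 h) (by
      intro i hi hin h
      rw [mem_union] at h
      rcases h with h | h
      · exact hgood.acc1 e₁ m1N m1d i hi hin h
      · obtain ⟨-, -, a1, a2⟩ := r3 e₁ i m1E hin
        obtain ⟨-, -, a3, a4⟩ := r3 e₂ i m2E hin
        rw [a1, ← a3]
        rw [a2, ← a4] at h
        exact hgood.acc1 e₂ m2N m2d i hi hin h)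
  have hst2' : Λ.card + ((range (N + 2)).filter (fun v => φ v ∈ L e₁ ∪ L e₂)).card +
      tJ N b (inT N k b) J ≤ 2 * N + 1 := by
    convert hst2 using 3
  have hU2 := hU (L e₁ ∪ L e₂) (by
    intro u hu
    rw [mem_union] at hu
    rcases hu with h | h
    · exact ⟨e₁, m1F, h⟩
    · exact ⟨e₂, m2F, h⟩)
  have hcU : (L e₁ ∪ L e₂).card + (L e₁ ∩ L e₂).card = (L e₁).card + (L e₂).card :=
    card_union_add_card_inter _ _
  have hb1' : 2 * N + 1 - k ≤ (L e₁).card := hgood.big e₁ m1N he₁X
  have hb2' : k ≤ (L e₂).card := by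
    by_cases h : XT k b J e₂
    · exact hpairs.xbig e₂ h
    · have := hgood.big e₂ m2N h
      have h' : 2 * N + 1 - k ≤ (L e₂).card := this
      omega
  omega

end MP_182bbb_co.TT.H72
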